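import Pool.Agent.helper6.EV.Spec

/-! CC: counting primes in reciprocal short intervals. -/

set_option autoImplicit false

namespace Pool.Agent.EV

open N1f72dd46 Filter MeasureTheory Complex Metric Pool.Agent.helper6.LD

theorem CC_pc (n : ℕ) : (Nat.primeCounting n : ℝ) =
    ∑ p ∈ (Finset.Ioc 0 n).filter Nat.Prime, (1 : ℝ) := by
  rw [Finset.sum_const, nsmul_eq_mul, mul_one, Nat.primeCounting, Nat.primeCounting',
    Nat.count_eq_card_filter_range]
  congr 2
  ext p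
  simp only [Finset.mem_filter, Finset.mem_range, Finset.mem_Ioc]
  constructor
  · rintro ⟨h1, h2⟩
    exact ⟨⟨h2.pos, by omega⟩, h2⟩
  · rintro ⟨⟨_, h1⟩, h2⟩
    exact ⟨by omega, h2⟩

theorem CC_sum (f : ℕ → ℝ) (m n : ℕ) (h : m ≤ n) :
    ∑ p ∈ (Finset.Ioc 0 n).filter Nat.Prime, f p - ∑ p ∈ (Finset.Ioc 0 m).filter Nat.Prime, f p =
      ∑ p ∈ (Finset.Ioc m n).filter Nat.Prime, f p := by
  rw [Finset.sum_filter, Finset.sum_filter, Finset.sum_filter,
    ← Finset.sum_Ioc_consecutive _ (Nat.zero_le m) h]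
  ring

theorem CC_bd (a b : ℝ) (ha : 1 ≤ a) (hab : a ≤ b) :
    (pc b - pc a) * Real.log a ≤ Chebyshev.theta b - Chebyshev.theta a ∧
    Chebyshev.theta b - Chebyshev.theta a ≤ (pc b - pc a) * Real.log b := by
  have hfl : ⌊a⌋₊ ≤ ⌊b⌋₊ := Nat.floor_mono hab
  have e1 : pc b - pc a = ∑ p ∈ (Finset.Ioc ⌊a⌋₊ ⌊b⌋₊).filter Nat.Prime, (1 : ℝ) := by
    unfold pc
    rw [CC_pc, CC_pc, CC_sum _ _ _ hfl]
  have e2 : Chebyshev.theta b - Chebyshev.theta a =
      ∑ p ∈ (Finset.Ioc ⌊a⌋₊ ⌊b⌋₊).filter Nat.Prime, Real.log (p : ℝ) := by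
    unfold Chebyshev.theta
    exact CC_sum (fun p => Real.log (p : ℝ)) _ _ hfl
  rw [e1, e2, Finset.sum_mul, Finset.sum_mul]
  constructor
  · refine Finset.sum_le_sum fun p hp => ?_
    rw [Finset.mem_filter, Finset.mem_Ioc] at hp
    rw [one_mul]
    exact Real.log_le_log (by linarith) (Nat.lt_of_floor_lt hp.1.1).le
  · refine Finset.sum_le_sum fun p hp => ?_
    rw [Finset.mem_filter, Finset.mem_Ioc] at hp
    rw [one_mul]
    refine Real.log_le_log (by exact_mod_cast hp.2.pos) ?_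
    exact (Nat.le_floor_iff (by linarith)).1 hp.1.2

theorem CC (hCA : CA_stmt) : CC_stmt := by
  intro φ C hφ hφ1 hC hth
  obtain ⟨κ, hκd⟩ : ∃ κ : ℝ, κ = (1 - φ) / 8 := ⟨_, rfl⟩
  have hκ : 0 < κ := by rw [hκd]; linarith
  have hκ16 : κ ≤ 1 / 16 := by rw [hκd]; linarith
  have hφκ : φ = 1 - 8 * κ := by rw [hκd]; ring
  obtain ⟨X1, hX1, hca⟩ := hCA κ (1 + 4 * C) hκ hκ16 (by linarith)
  refine ⟨max X1 ((1 + 4 * C) ^ (1 / (2 * κ))), le_trans hX1 (le_max_left _ _), ?_⟩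
  intro X b hX hb hb2
  rw [← hκd] at hb hb2 ⊢
  have hXX1 : X1 ≤ X := le_trans (le_max_left _ _) hX
  have hX1' : 1 ≤ X := le_trans hX1 hXX1
  have hX0 : 0 < X := by linarith
  obtain ⟨y, hyd⟩ : ∃ y : ℝ, y = X ^ (-κ) := ⟨_, rfl⟩
  have hy0 : 0 < y := by rw [hyd]; exact Real.rpow_pos_of_pos hX0 _
  have hy1 : y ≤ 1 := by rw [hyd]; exact Real.rpow_le_one_of_one_le_of_nonpos hX1' (by linarith)
  have hyn : ∀ n : ℕ, X ^ (-(n * κ)) = y ^ n := by
    intro n
    rw [hyd, ← Real.rpow_natCast, ← Real.rpow_mul hX0.le]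
    congr 1
    ring
  have hXn : ∀ n : ℕ, X ^ (1 - n * κ) = X * y ^ n := by
    intro n
    rw [← hyn n, sub_eq_add_neg, Real.rpow_add hX0, Real.rpow_one]
  have e1 : X ^ (1 - κ) = X * y := by
    have := hXn 1
    rwa [Nat.cast_one, one_mul, pow_one] at this
  have e3 : X ^ (1 - 3 * κ) = X * y ^ 3 := by
    have := hXn 3
    push_cast at this
    exact this
  have e2 : X ^ (-(2 * κ)) = y ^ 2 := by
    have := hyn 2
    push_cast at this
    exact this
  have e8 : X ^ φ = X * y ^ 8 := by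
    have := hXn 8
    push_cast at this
    rw [hφκ]
    exact this
  have e7 : X ^ (1 - 7 * κ) = X * y ^ 7 := by
    have := hXn 7
    push_cast at this
    exact this
  rw [e1] at hb hb2
  rw [e3] at hb2 ⊢
  obtain ⟨h, hhd⟩ : ∃ h : ℝ, h = X * y ^ 3 := ⟨_, rfl⟩
  rw [← hhd] at hb2 ⊢
  have hh0 : 0 < h := by rw [hhd]; positivity
  have hXy : 0 < X * y := by positivity
  -- X y ≥ 1
  have hXy1 : 1 ≤ X * y := by
    rw [← e1]
    exact Real.one_le_rpow hX1' (by linarith)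
  have hb1 : 1 ≤ b := le_trans hXy1 hb
  have hb0 : 0 < b := by linarith
  have hb'0 : 0 < b + h := by linarith
  have hb''0 : 0 < b + 2 * h := by linarith
  have hXgt : 1 < X := by linarith
  have hy1' : y < 1 := by
    by_contra hcon
    have : y = 1 := le_antisymm hy1 (not_lt.1 hcon)
    rw [this, mul_one] at hb2
    linarith
  have hbgt : 1 < b := by
    rcases lt_or_eq_of_le hXy1 with h1 | h1
    · linarith
    · exfalso
      rw [← e1] at h1
      have := Real.one_lt_rpow hXgt (show 0 < 1 - κ by linarith)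
      linarith
  -- C0 y^2 ≤ 1
  have hC0 : (1 + 4 * C) * y ^ 2 ≤ 1 := by
    have h1 : (1 + 4 * C) ^ (1 / (2 * κ)) ≤ X := le_trans (le_max_right _ _) hX
    have h2 : ((1 + 4 * C) ^ (1 / (2 * κ))) ^ (2 * κ) ≤ X ^ (2 * κ) :=
      Real.rpow_le_rpow (by positivity) h1 (by positivity)
    rw [← Real.rpow_mul (by linarith), one_div_mul_cancel (by positivity), Real.rpow_one] at h2
    rw [← e2, Real.rpow_neg hX0.le, ← div_eq_mul_inv, div_le_one (by positivity)]
    exact h2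
  -- v
  obtain ⟨v, hvd⟩ : ∃ v : ℝ, v = Real.log (X / (b + h)) := ⟨_, rfl⟩
  have hev : Real.exp v = X / (b + h) := by rw [hvd, Real.exp_log (by positivity)]
  have hlogb' : Real.log (b + h) = Real.log X - v := by
    rw [hvd, Real.log_div hX0.ne' hb'0.ne']
    ring
  have hvy : y ≤ v := by
    rw [hvd, Real.le_log_iff_exp_le (by positivity), le_div_iff₀ hb'0]
    have h1 : 1 - y ≤ Real.exp (-y) := by
      have := Real.add_one_le_exp (-y)
      linarith
    have h2 : b + h ≤ X * (1 - y) := by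
      have h3 : X * (1 - y) = X - X * y := by ring
      linarith
    calc Real.exp y * (b + h) ≤ Real.exp y * (X * (1 - y)) :=
          mul_le_mul_of_nonneg_left h2 (Real.exp_pos _).le
      _ ≤ Real.exp y * (X * Real.exp (-y)) := by
          apply mul_le_mul_of_nonneg_left _ (Real.exp_pos _).le
          exact mul_le_mul_of_nonneg_left h1 hX0.le
      _ = X * (Real.exp y * Real.exp (-y)) := by ring
      _ = X := by rw [← Real.exp_add, add_neg_cancel, Real.exp_zero, mul_one]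
  have hvκ : v ≤ κ * Real.log X := by
    have h1 : Real.log (X * y) ≤ Real.log (b + h) := Real.log_le_log hXy (by linarith)
    rw [← e1, Real.log_rpow hX0, hlogb'] at h1
    linarith
  have key := hca X v hXX1 (by rw [← hyd]; exact hvy) hvκ
  rw [e2] at key
  -- the logarithm of b
  have hlogb0 : 0 < Real.log b := Real.log_pos hbgt
  have hhb : h / b ≤ y ^ 2 := by
    rw [div_le_iff₀ hb0, hhd]
    calc X * y ^ 3 = y ^ 2 * (X * y) := by ring
      _ ≤ y ^ 2 * b := mul_le_mul_of_nonneg_left hb (by positivity)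
  have hlogb : Real.log X - v - (1 + 4 * C) * y ^ 2 ≤ Real.log b := by
    have h1 : Real.log ((b + h) / b) ≤ (b + h) / b - 1 := Real.log_le_sub_one_of_pos (by positivity)
    rw [Real.log_div hb'0.ne' hb0.ne', hlogb'] at h1
    have h2 : (b + h) / b - 1 = h / b := by field_simp; ring
    rw [h2] at h1
    have h3 : 0 ≤ 4 * C * y ^ 2 := by positivity
    have h4 : (1 + 4 * C) * y ^ 2 = y ^ 2 + 4 * C * y ^ 2 := by ring
    linarith
  -- log Y
  obtain ⟨Y, hYd⟩ : ∃ Y : ℝ, Y = X ^ 2 / (b + h) := ⟨_, rfl⟩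
  obtain ⟨Z, hZd⟩ : ∃ Z : ℝ, Z = X ^ 2 / (b + 2 * h) := ⟨_, rfl⟩
  have hY0 : 0 < Y := by rw [hYd]; positivity
  have hZ0 : 0 < Z := by rw [hZd]; positivity
  have hlogY : Real.log Y = Real.log X + v := by
    rw [hYd, Real.log_div (by positivity) hb'0.ne', Real.log_pow, hlogb']
    push_cast
    ring
  have hZY : Z ≤ Y := by
    rw [hYd, hZd]
    exact div_le_div_of_nonneg_left (by positivity) hb'0 (by linarith)
  have hZ1 : 1 ≤ Z := by
    rw [hZd, le_div_iff₀ hb''0, one_mul]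
    have h3 : X * 1 ≤ X * X := mul_le_mul_of_nonneg_left hX1' hX0.le
    have h4 : X ^ 2 = X * X := sq X
    linarith
  have hYX : Y ≤ X / y := by
    rw [hYd, div_le_div_iff₀ hb'0 hy0]
    have h3 : X * (X * y) ≤ X * (b + h) := mul_le_mul_of_nonneg_left (by linarith) hX0.le
    have h4 : X ^ 2 * y = X * (X * y) := by ring
    linarith
  have hlogY0 : 0 < Real.log Y := by
    rw [hlogY]
    have := Real.log_pos hXgt
    linarith
  -- theta
  have hb'X : b + h ≤ X := by linarith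
  have t1 := hth (b + h) (by linarith)
  have t2 := hth b hb1
  have t3 := hth Y (le_trans hZ1 hZY)
  have t4 := hth Z hZ1
  rw [abs_le] at t1 t2 t3 t4
  have hφ0 : 0 ≤ φ := by linarith
  have p1 : (b + h) ^ φ ≤ X * y ^ 8 := by
    rw [← e8]
    exact Real.rpow_le_rpow hb'0.le hb'X hφ0
  have p2 : b ^ φ ≤ X * y ^ 8 := by
    rw [← e8]
    exact Real.rpow_le_rpow hb0.le (by linarith) hφ0
  have p3 : Y ^ φ ≤ X * y ^ 7 := by
    have h1 : X / y = X ^ (1 + κ) := by
      rw [hyd, Real.rpow_neg hX0.le, div_inv_eq_mul, Real.rpow_add hX0, Real.rpow_one]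
    calc Y ^ φ ≤ (X / y) ^ φ := Real.rpow_le_rpow hY0.le hYX hφ0
      _ = X ^ ((1 + κ) * φ) := by rw [h1, ← Real.rpow_mul hX0.le]
      _ ≤ X ^ (1 - 7 * κ) := by
          apply Real.rpow_le_rpow_of_exponent_le hX1'
          rw [hφκ]
          nlinarith
      _ = X * y ^ 7 := e7
  have p4 : Z ^ φ ≤ X * y ^ 7 := le_trans (Real.rpow_le_rpow hZ0.le hZY hφ0) p3
  have hA := (CC_bd b (b + h) hb1 (by linarith)).1
  have hB := (CC_bd Z Y hZ1 hZY).2
  rw [← hYd, ← hZd]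
  have hA' : (pc (b + h) - pc b) * Real.log b ≤ X * y ^ 3 * (1 + 2 * C * y ^ 5) := by
    have h1 : C * (b + h) ^ φ ≤ C * (X * y ^ 8) := mul_le_mul_of_nonneg_left p1 hC.le
    have h2 : C * b ^ φ ≤ C * (X * y ^ 8) := mul_le_mul_of_nonneg_left p2 hC.le
    calc (pc (b + h) - pc b) * Real.log b ≤ h + 2 * (C * (X * y ^ 8)) := by linarith
      _ = X * y ^ 3 * (1 + 2 * C * y ^ 5) := by rw [hhd]; ring
  have hYZ : Y - Z = X * y ^ 3 * (Real.exp (2 * v) * ((b + h) / (b + 2 * h))) := by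
    have h1 : Real.exp (2 * v) = (X / (b + h)) ^ 2 := by
      rw [← hev, ← Real.exp_nat_mul]
      push_cast
      ring_nf
    rw [h1, hYd, hZd, ← hhd]
    field_simp
    ring
  have hfrac : 1 - y ^ 2 ≤ (b + h) / (b + 2 * h) := by
    rw [le_div_iff₀ hb''0]
    have h1 : h ≤ y ^ 2 * b := by rwa [div_le_iff₀ hb0] at hhb
    have h2 : 0 ≤ y ^ 2 * h := by positivity
    have h3 : (1 - y ^ 2) * (b + 2 * h) = b + 2 * h - y ^ 2 * b - 2 * (y ^ 2 * h) := by ring
    linarith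
  have he1 : 1 ≤ Real.exp (2 * v) := Real.one_le_exp (by linarith)
  have hU : Real.exp (2 * v) * (1 - (1 + 4 * C) * y ^ 2) ≤
      Real.exp (2 * v) * ((b + h) / (b + 2 * h)) - 2 * C * y ^ 4 := by
    have h1 : Real.exp (2 * v) * (1 - y ^ 2) ≤ Real.exp (2 * v) * ((b + h) / (b + 2 * h)) :=
      mul_le_mul_of_nonneg_left hfrac (Real.exp_pos _).le
    have h2 : y ^ 4 ≤ y ^ 2 := pow_le_pow_of_le_one hy0.le hy1 (by norm_num)
    have h3 : 2 * C * y ^ 4 ≤ 2 * C * y ^ 2 := mul_le_mul_of_nonneg_left h2 (by linarith)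
    have h4 : 2 * C * y ^ 2 ≤ Real.exp (2 * v) * (2 * C * y ^ 2) :=
      le_mul_of_one_le_left (by positivity) he1
    have h5 : 0 ≤ Real.exp (2 * v) * (C * y ^ 2) := by positivity
    have h6 : Real.exp (2 * v) * (1 - (1 + 4 * C) * y ^ 2) = Real.exp (2 * v) * (1 - y ^ 2) -
        4 * (Real.exp (2 * v) * (C * y ^ 2)) := by ring
    have h7 : Real.exp (2 * v) * (2 * C * y ^ 2) = 2 * (Real.exp (2 * v) * (C * y ^ 2)) := by ring
    linarith
  have hB' : X * y ^ 3 * (Real.exp (2 * v) * ((b + h) / (b + 2 * h)) - 2 * C * y ^ 4) ≤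
      (pc Y - pc Z) * Real.log Y := by
    have h1 : C * Y ^ φ ≤ C * (X * y ^ 7) := mul_le_mul_of_nonneg_left p3 hC.le
    have h2 : C * Z ^ φ ≤ C * (X * y ^ 7) := mul_le_mul_of_nonneg_left p4 hC.le
    calc X * y ^ 3 * (Real.exp (2 * v) * ((b + h) / (b + 2 * h)) - 2 * C * y ^ 4)
        = (Y - Z) - 2 * (C * (X * y ^ 7)) := by rw [hYZ]; ring
      _ ≤ (pc Y - pc Z) * Real.log Y := by linarith
  obtain ⟨U, hUd⟩ : ∃ U : ℝ, U = Real.exp (2 * v) * ((b + h) / (b + 2 * h)) - 2 * C * y ^ 4 :=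
    ⟨_, rfl⟩
  rw [← hUd] at hU hB'
  have hU0 : 0 ≤ Real.exp (2 * v) * (1 - (1 + 4 * C) * y ^ 2) :=
    mul_nonneg (Real.exp_pos _).le (by linarith)
  have hLv : 0 < Real.log X + v := by rw [← hlogY]; exact hlogY0
  have f1 : (1 + 2 * C * y ^ 5) * (Real.log X + v) ≤ U * Real.log b := by
    have h2 : y ^ 5 ≤ y ^ 2 := pow_le_pow_of_le_one hy0.le hy1 (by norm_num)
    have h3 : 1 + 2 * C * y ^ 5 ≤ 1 + (1 + 4 * C) * y ^ 2 := by
      have h4 : 2 * C * y ^ 5 ≤ 2 * C * y ^ 2 := mul_le_mul_of_nonneg_left h2 (by linarith)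
      have h5 : 0 ≤ y ^ 2 + 2 * C * y ^ 2 := by positivity
      have h6 : (1 + 4 * C) * y ^ 2 = (y ^ 2 + 2 * C * y ^ 2) + 2 * C * y ^ 2 := by ring
      linarith
    calc (1 + 2 * C * y ^ 5) * (Real.log X + v) ≤ (1 + (1 + 4 * C) * y ^ 2) * (Real.log X + v) :=
          mul_le_mul_of_nonneg_right h3 hLv.le
      _ ≤ Real.exp (2 * v) * (1 - (1 + 4 * C) * y ^ 2) *
            (Real.log X - v - (1 + 4 * C) * y ^ 2) := key
      _ ≤ Real.exp (2 * v) * (1 - (1 + 4 * C) * y ^ 2) * Real.log b :=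
          mul_le_mul_of_nonneg_left hlogb hU0
      _ ≤ U * Real.log b := mul_le_mul_of_nonneg_right hU hlogb0.le
  have hpos : 0 < X * y ^ 3 := by positivity
  have f2 : (pc (b + h) - pc b) * (Real.log b * Real.log Y) ≤
      (pc Y - pc Z) * (Real.log b * Real.log Y) := by
    calc (pc (b + h) - pc b) * (Real.log b * Real.log Y)
        = (pc (b + h) - pc b) * Real.log b * Real.log Y := by ring
      _ ≤ X * y ^ 3 * (1 + 2 * C * y ^ 5) * Real.log Y :=
          mul_le_mul_of_nonneg_right hA' hlogY0.le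
      _ = X * y ^ 3 * ((1 + 2 * C * y ^ 5) * (Real.log X + v)) := by rw [hlogY]; ring
      _ ≤ X * y ^ 3 * (U * Real.log b) := mul_le_mul_of_nonneg_left f1 hpos.le
      _ = X * y ^ 3 * U * Real.log b := by ring
      _ ≤ (pc Y - pc Z) * Real.log Y * Real.log b := mul_le_mul_of_nonneg_right hB' hlogb0.le
      _ = (pc Y - pc Z) * (Real.log b * Real.log Y) := by ring
  exact le_of_mul_le_mul_right f2 (mul_pos hlogb0 hlogY0)

end Pool.Agent.EV
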